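import Pool.Agent.Lib.MP_b5021c_nt.B.H71.Com

/-!
# Board b5, row I1C (helper71)
-/

namespace Pool.Agent.B5.H71

open scoped LaurentPolynomial
open AddMonoidAlgebra

set_option linter.unusedSectionVars false

section Gen

variable {O : Type} [CommRing O] {L : Type} [AddCommGroup L]

theorem supp_cl (k : L →+ ℤ) (S : L) (h : k S = 1) (eta : (RO O)ˣ) (D : AO O L)
    (a' : Ker k) (ha' : a' ∈ supp (cl k S h eta D)) : ∃ a ∈ supp D, prj k S h a = a' := by
  have h1 : D = ∑ a ∈ D.coeff.support, single a (D.coeff a) := (sum_coeff_single D).symm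
  have h2 : (cl k S h eta D).coeff a' = ∑ a ∈ D.coeff.support,
      (cl k S h eta (single a (D.coeff a))).coeff a' := by
    conv_lhs => rw [h1]
    rw [map_sum, coeff_sum, Finsupp.finsetSum_apply]
  have h3 : (cl k S h eta D).coeff a' ≠ 0 := ha'
  rw [h2] at h3
  obtain ⟨a, ha, hne⟩ := Finset.exists_ne_zero_of_sum_ne_zero h3
  refine ⟨a, Finsupp.mem_support_iff.mp ha, ?_⟩
  rw [cl_single, coeff_single] at hne
  by_contra hcon
  exact hne (Finsupp.single_eq_of_ne (fun h4 => hcon h4.symm))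

theorem pos_cl (k : L →+ ℤ) (S : L) (h : k S = 1) (eta : (RO O)ˣ) (D : AO O L)
    (lam : L →+ ℤ) (hS : lam S = 0) (hp : ∀ a ∈ supp D, a ≠ 0 → a ≠ S → 0 < lam a) :
    Pos (lam.comp (incl (Ker k))) (cl k S h eta D) := by
  intro a' ha' h0
  obtain ⟨a, ha, rfl⟩ := supp_cl k S h eta D a' (Finsupp.mem_support_iff.mp ha')
  change 0 < lam ((prj k S h a : Ker k) : L)
  rw [prj_coe, map_sub, map_zsmul, hS, smul_zero, sub_zero]
  apply hp a ha
  · rintro rfl
    exact h0 (map_zero _)
  · rintro rfl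
    exact h0 (prj_self k a h)

theorem prim_res (K : Submodule ℤ L) (G : AO O L) (hG : ∀ a ∈ supp G, a ∈ K) (hp : Prim G) :
    Prim (res K G) := by
  intro c hc
  apply hp c
  obtain ⟨H, hH⟩ := hc
  refine ⟨em K H, ?_⟩
  have := congrArg (em K) hH
  rw [em_res K G hG, map_mul, em_cst] at this
  exact this

theorem prim_one : Prim (1 : AO O L) := by
  rintro c ⟨H, hH⟩
  have h1 := congrArg (fun F : AO O L => F.coeff 0) hH
  simp only [cst_mul_coeff] at h1
  have h2 : (1 : AO O L).coeff 0 = 1 := coeff_one_zero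
  rw [h2] at h1
  exact IsUnit.of_mul_eq_one _ h1.symm

/-- Decomposition of a multi-affine element with respect to the pivot. -/
theorem decomp (k : L →+ ℤ) (S : L) (h : k S = 1) (D : AO O L)
    (hD : ∀ a ∈ supp D, k a = 0 ∨ k a = 1) :
    D = em (Ker k) (res (Ker k) D) +
      single S 1 * em (Ker k) (res (Ker k) (single (-S) 1 * D)) := by
  apply AddMonoidAlgebra.ext
  apply Finsupp.ext
  intro a
  rw [coeff_add, Finsupp.add_apply, coeff_single_mul_apply, one_mul]
  by_cases h0 : k a = 0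
  · have h1 : (-S + a) ∉ Ker k := by
      intro h2
      rw [mem_Ker, map_add, map_neg, h, h0] at h2
      omega
    rw [em_coeff_not _ _ _ h1, add_zero]
    exact (em_coeff (Ker k) (res (Ker k) D) ⟨a, h0⟩).symm
  · rw [em_coeff_not _ _ a h0, zero_add]
    by_cases h1 : k a = 1
    · have h2 : (-S + a) ∈ Ker k := by
        rw [mem_Ker, map_add, map_neg, h, h1]
        omega
      have h3 := em_coeff (Ker k) (res (Ker k) (single (-S) 1 * D)) ⟨-S + a, h2⟩
      rw [res_coeff, coeff_single_mul_apply, one_mul, neg_neg] at h3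
      have h4 : S + (((⟨-S + a, h2⟩ : Ker k)) : L) = a := by
        change S + (-S + a) = a
        abel
      rw [h4] at h3
      exact h3.symm
    · have h2 : (-S + a) ∉ Ker k := by
        intro h2
        rw [mem_Ker, map_add, map_neg, h] at h2
        omega
      rw [em_coeff_not _ _ _ h2]
      by_contra h3
      rcases hD a h3 with h4 | h4
      · exact h0 h4
      · exact h1 h4

/-- If `w^b = e` kills `X` and `V` then `1 - e⁻¹ w^b` divides `D`. -/
theorem dvd_of_closed {O : Type} [CommRing O] [IsDomain O] {L : Type} [AddCommGroup L]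
    [Module.Free ℤ L] [Module.Finite ℤ L]
    (k : L →+ ℤ) (S : L) (h : k S = 1) (eta : (RO O)ˣ) (D : AO O L)
    (hD : ∀ a ∈ supp D, k a = 0 ∨ k a = 1) (k' : Ker k →+ ℤ) (b : Ker k) (hj : k' b = 1)
    (e : (RO O)ˣ) (hX0 : cl k' b hj e (res (Ker k) D) = 0)
    (hV0 : cl k' b hj e (cl k S h eta D) = 0) :
    (1 - single (b : L) ((e⁻¹ : (RO O)ˣ) : RO O)) ∣ D := by
  have hdec := decomp k S h D hD
  generalize res (Ker k) D = X at hX0 hdec
  generalize res (Ker k) (single (-S) 1 * D) = Y at hdec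
  have hV : cl k S h eta D = X + cst (eta : RO O) * Y := by
    conv_lhs => rw [hdec]
    rw [map_add, map_mul, cl_em, cl_em, cl_single, prj_self, h, zpow_one, one_mul]
    rfl
  have hY0 : cl k' b hj e Y = 0 := by
    rw [hV, map_add, hX0, zero_add, map_mul, cl_cst] at hV0
    have h1 : (cst ((eta⁻¹ : (RO O)ˣ) : RO O) : AO O (Ker k')) * (cst (eta : RO O) * cl k' b hj e Y) =
        cl k' b hj e Y := by
      rw [← mul_assoc, ← cst_mul, Units.inv_mul, cst_one, one_mul]
    rw [← h1, hV0, mul_zero]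
  have hdX : (1 - single b ((e⁻¹ : (RO O)ˣ) : RO O)) ∣ X := by
    have := cl_dvd k' b hj e X
    rwa [hX0, map_zero, sub_zero] at this
  have hdY : (1 - single b ((e⁻¹ : (RO O)ˣ) : RO O)) ∣ Y := by
    have := cl_dvd k' b hj e Y
    rwa [hY0, map_zero, sub_zero] at this
  have hPf' : em (Ker k) (1 - single b ((e⁻¹ : (RO O)ˣ) : RO O)) =
      1 - single (b : L) ((e⁻¹ : (RO O)ˣ) : RO O) := by
    rw [map_sub, map_one, em_single]
  rw [← hPf', hdec]
  exact dvd_add ((em (Ker k)).map_dvd hdX) (Dvd.dvd.mul_left ((em (Ker k)).map_dvd hdY) _)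

theorem rank_le_one {O : Type} [CommRing O] [IsDomain O] [IsPrincipalIdealRing O] [Coef O]
    {L : Type} [AddCommGroup L]
    [Module.Free ℤ L] [Module.Finite ℤ L] (hU : UnitAS) (D : AO O L) (b : L) (hb0 : b ≠ 0)
    (e : (RO O)ˣ) (hirr : Irreducible D) (hD0 : D.coeff 0 ≠ 0)
    (hd : (1 - single b ((e⁻¹ : (RO O)ˣ) : RO O)) ∣ D) : rk (supp D) ≤ 1 := by
  obtain ⟨Q, hQ⟩ := hd
  have hPnu : ¬ IsUnit (1 - single b ((e⁻¹ : (RO O)ˣ) : RO O) : AO O L) := by
    rw [hU O L]
    rintro ⟨a, q, hq, h1⟩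
    have h2 : (1 - single b ((e⁻¹ : (RO O)ˣ) : RO O) : AO O L).coeff 0 = 1 := by
      rw [coeff_sub, Finsupp.sub_apply, coeff_single, Finsupp.single_eq_of_ne (Ne.symm hb0),
        sub_zero]
      exact coeff_one_zero
    have h3 : (1 - single b ((e⁻¹ : (RO O)ˣ) : RO O) : AO O L).coeff b =
        -((e⁻¹ : (RO O)ˣ) : RO O) := by
      rw [coeff_sub, Finsupp.sub_apply, coeff_single, Finsupp.single_eq_same, one_def,
        coeff_single, Finsupp.single_eq_of_ne hb0, zero_sub]
    rw [h1, coeff_single] at h2 h3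
    have h4 : a = 0 := by
      by_contra hne
      rw [Finsupp.single_eq_of_ne (Ne.symm hne)] at h2
      exact zero_ne_one h2
    have h5 : a = b := by
      by_contra hne
      rw [Finsupp.single_eq_of_ne (Ne.symm hne)] at h3
      exact (e⁻¹ : (RO O)ˣ).ne_zero (neg_eq_zero.mp h3.symm)
    exact hb0 (h5.symm.trans h4)
  have hQu : IsUnit Q := by
    rcases hirr.isUnit_or_isUnit hQ with h1 | h1
    · exact absurd h1 hPnu
    · exact h1
  obtain ⟨a, q, hq, hQ'⟩ := (hU O L Q).mp hQu
  have hcoef : ∀ x, D.coeff x ≠ 0 → x = a ∨ x = a + b := by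
    intro x hx
    rw [hQ, hQ', sub_mul, one_mul, single_mul_single, coeff_sub, Finsupp.sub_apply,
      coeff_single, coeff_single] at hx
    by_contra hcon
    rw [not_or] at hcon
    rw [Finsupp.single_eq_of_ne hcon.1, Finsupp.single_eq_of_ne (by
      intro h1; apply hcon.2; rw [h1]; abel), sub_zero] at hx
    exact hx rfl
  have h0 := hcoef 0 hD0
  have hsub : supp D ⊆ (Submodule.span ℤ {b} : Submodule ℤ L) := by
    intro x hx
    have hb : b ∈ Submodule.span ℤ {b} := Submodule.subset_span rfl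
    rcases hcoef x hx with h1 | h1 <;> rcases h0 with h2 | h2
    · rw [h1, ← h2]; exact Submodule.zero_mem _
    · have : x = -b := by rw [h1]; exact eq_neg_of_add_eq_zero_left h2.symm
      rw [this]; exact Submodule.neg_mem _ hb
    · have : x = b := by rw [h1, ← h2, zero_add]
      rw [this]; exact hb
    · rw [h1, ← h2]; exact Submodule.zero_mem _
  have hle : Submodule.span ℤ (supp D) ≤ Submodule.span ℤ {b} := Submodule.span_le.mpr hsub
  have h1 : Module.finrank ℤ (Submodule.span ℤ (supp D)) ≤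
      Module.finrank ℤ (Submodule.span ℤ {b}) := Submodule.finrank_mono hle
  have h2 : Module.finrank ℤ (Submodule.span ℤ {b}) ≤ 1 := by
    have := finrank_span_le_card (R := ℤ) ({b} : Set L)
    simpa using this
  exact h1.trans h2

end Gen

section Gen2

variable {O : Type} [CommRing O] [Coef O] {L : Type} [AddCommGroup L]

theorem full_res (k : L →+ ℤ) (S : L) (h : k S = 1) (G : AO O L) (hG : ∀ a ∈ supp G, k a = 0)
    (lam : L →+ ℤ) (hf : FullAt lam G) : FullAt (lam.comp (incl (Ker k))) (res (Ker k) G) := by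
  obtain ⟨h0, hp, hz⟩ := hf
  refine ⟨h0, ?_, ?_⟩
  · intro a ha ha0
    apply hp (a : L)
    · rw [Finsupp.mem_support_iff] at ha ⊢
      exact ha
    · intro h1
      exact ha0 (Subtype.ext h1)
  · intro z hz0 u s hs
    apply hz z hz0 (extc k S h u 1) s
    have h1 := em_res (Ker k) G hG
    rw [← h1, spec_em, sl_em (Ker k) _ u (fun a => extc_ker k S h u 1 a)]
    exact hs

theorem nn_of_pos {K : Type} [Semiring K] (lam : L →+ ℤ) (G : AddMonoidAlgebra K L)
    (hp : Pos lam G) : Nn lam G := by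
  intro a ha
  by_cases h0 : a = 0
  · rw [h0, map_zero]
  · exact (hp a ha h0).le

theorem nn_spec (z : Circle) (lam : L →+ ℤ) (G : AO O L) (hp : Nn lam G) :
    Nn lam (spec z G) := by
  intro a ha
  apply hp a
  rw [Finsupp.mem_support_iff] at ha ⊢
  rw [spec_coeff] at ha
  intro h
  rw [h, map_zero] at ha
  exact ha rfl

theorem sl_prod [Module.Free ℤ L] [Module.Finite ℤ L] (hM : SlMulS) (u : AddChar L Circle)
    (lam : L →+ ℤ) {ι : Type} (s : Finset ι) (p : ι → CA L) (hp : ∀ i ∈ s, Nn lam (p i)) :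
    sl u lam (∏ i ∈ s, p i) = ∏ i ∈ s, sl u lam (p i) ∧ Nn lam (∏ i ∈ s, p i) := by
  classical
  induction s using Finset.induction_on with
  | empty =>
    refine ⟨?_, ?_⟩
    · rw [Finset.prod_empty, Finset.prod_empty, one_def, sl_cst]
      rfl
    · intro a ha
      rw [Finset.prod_empty, one_def, coeff_single] at ha
      have := Finsupp.support_single_subset ha
      rw [Finset.mem_singleton] at this
      rw [this, map_zero]
  | insert i s hi ih =>
    have ih' := ih (fun j hj => hp j (Finset.mem_insert_of_mem hj))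
    have h1 := hM L u lam (p i) (∏ i ∈ s, p i) (hp i (Finset.mem_insert_self _ _)) ih'.2
    rw [Finset.prod_insert hi, Finset.prod_insert hi]
    exact ⟨by rw [h1.1, ih'.1], h1.2⟩

end Gen2

section Lim

theorem lim_le (f g : ℝ → ℝ) (hf : Continuous f) (hg : Continuous g)
    (h : ∀ s : ℝ, 0 < s → s < 1 → f s ≤ g s) : f 1 ≤ g 1 := by
  have h1 : (1 : ℝ) ∈ closure (Set.Ioo (0 : ℝ) 1) := by
    rw [closure_Ioo (by norm_num)]
    exact ⟨by norm_num, le_refl _⟩
  exact le_on_closure (s := Set.Ioo (0 : ℝ) 1) (fun s hs => h s hs.1 hs.2) hf.continuousOn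
    hg.continuousOn h1

theorem one_sub_pow_le (s : ℝ) (hs0 : 0 < s) (hs1 : s < 1) (n : ℕ) : 1 - s ^ n ≤ n * (1 - s) := by
  have h := one_add_mul_le_pow (a := s - 1) (by linarith) n
  have : (1 : ℝ) + (s - 1) = s := by ring
  rw [this] at h
  nlinarith

end Lim

section Main

variable {O : Type} [CommRing O] [IsDomain O] [IsPrincipalIdealRing O] [Coef O]
  {P L : Type} [Fintype P] [DecidableEq P] [AddCommGroup L] [Module.Free ℤ L]
  [Module.Finite ℤ L] {phi : L →+ (P → ℤ)} {D : AO O L} {S : L} {i0 : P} {eta : (RO O)ˣ}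
  {h : co phi i0 S = 1} {c : RO O} {n : ℕ} {G : Fin n → AO O (Ker (co phi i0))}

theorem oth (l : Fin n) (b : Ker (co phi i0)) (j : P) (e : (RO O)ˣ)
    (sp : Spt phi S i0 G l b j e) (i : Fin n) (hi : i ≠ l) :
    ∀ a ∈ supp (G i), co (phK phi (co phi i0)) j a = 0 := fun a ha => sp.other i hi a ha

theorem cl_prod (l : Fin n) (b : Ker (co phi i0)) (j : P) (e : (RO O)ˣ)
    (sp : Spt phi S i0 G l b j e) (hj : co (phK phi (co phi i0)) j b = 1) :
    cl (co (phK phi (co phi i0)) j) b hj e (∏ i ∈ Finset.univ.erase l, G i) =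
      ∏ i ∈ Finset.univ.erase l, res (Ker (co (phK phi (co phi i0)) j)) (G i) := by
  rw [map_prod]
  apply Finset.prod_congr rfl
  intro i hi
  exact cl_res _ _ _ _ _ (oth l b j e sp i (Finset.ne_of_mem_erase hi))

theorem full_U (hF : FullS) (l : Fin n) (b : Ker (co phi i0)) (j : P) (e : (RO O)ˣ)
    (sp : Spt phi S i0 G l b j e) (hj : co (phK phi (co phi i0)) j b = 1)
    (lam : Ker (co phi i0) →+ ℤ) (hG : ∀ i, FullAt lam (G i)) :
    FullAt (lam.comp (incl (Ker (co (phK phi (co phi i0)) j))))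
      (∏ i ∈ Finset.univ.erase l, res (Ker (co (phK phi (co phi i0)) j)) (G i)) := by
  classical
  have key : ∀ s : Finset (Fin n), l ∉ s →
      FullAt (lam.comp (incl (Ker (co (phK phi (co phi i0)) j))))
      (∏ i ∈ s, res (Ker (co (phK phi (co phi i0)) j)) (G i)) := by
    intro s
    induction s using Finset.induction_on with
    | empty =>
      intro _
      rw [Finset.prod_empty]
      exact (hF O _ (1 : AO O (Ker (co (phK phi (co phi i0)) j))) 1 _).2.2
    | insert i s hi ih =>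
      intro hl
      rw [Finset.prod_insert hi]
      rw [Finset.mem_insert, not_or] at hl
      refine (hF O _ _ _ _).2.1 ?_ (ih hl.2)
      exact full_res _ b hj (G i) (oth l b j e sp i (fun h => hl.1 h.symm)) lam (hG i)
  exact key _ (Finset.notMem_erase _ _)

theorem prim_U (hP : PrimS) (l : Fin n) (b : Ker (co phi i0)) (j : P) (e : (RO O)ˣ)
    (sp : Spt phi S i0 G l b j e) (hirr : ∀ i, Irreducible (G i)) (hwd : ∀ i, Wdep (G i)) :
    Prim (∏ i ∈ Finset.univ.erase l, res (Ker (co (phK phi (co phi i0)) j)) (G i)) := by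
  classical
  have key : ∀ s : Finset (Fin n), l ∉ s →
      Prim (∏ i ∈ s, res (Ker (co (phK phi (co phi i0)) j)) (G i)) := by
    intro s
    induction s using Finset.induction_on with
    | empty =>
      intro _
      rw [Finset.prod_empty]
      exact prim_one
    | insert i s hi ih =>
      intro hl
      rw [Finset.prod_insert hi]
      rw [Finset.mem_insert, not_or] at hl
      refine (hP O _ _ _).1 ?_ (ih hl.2)
      apply prim_res _ _ (oth l b j e sp i (fun h => hl.1 h.symm))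
      exact (hP O _ (G i) 1).2.1 (hirr i) (hwd i)
  exact key _ (Finset.notMem_erase _ _)

theorem est (hI1a : I1aS) (hEv : EvRS) (hM : SlMulS) (fd : FD phi D S i0 eta h c n G) (l : Fin n)
    (b : Ker (co phi i0)) (j : P) (e : (RO O)ˣ)
    (sp : Spt phi S i0 G l b j e) (hj : co (phK phi (co phi i0)) j b = 1)
    (lam : L →+ ℤ) (hS : lam S = 0) (hp : ∀ a ∈ supp D, a ≠ 0 → a ≠ S → 0 < lam a)
    (z : Circle) (hz : evR z (D.coeff 0 + (eta : RO O) * D.coeff S) ≠ 0) :
    ∃ C : ℝ, ∀ u : AddChar (Ker (co (phK phi (co phi i0)) j)) Circle,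
      ‖ev z u (Xl phi D i0 b j hj e)‖ ≤ C * ‖ev z u
        (∏ i ∈ Finset.univ.erase l, res (Ker (co (phK phi (co phi i0)) j)) (G i))‖ := by
  obtain ⟨C, hC⟩ := hI1a O P L phi D S i0 eta h fd.cc lam hS hp z hz
  have hposV := pos_cl (co phi i0) S h eta D lam hS hp
  set lam' : Ker (co phi i0) →+ ℤ := lam.comp (incl (Ker (co phi i0))) with hlam'
  have hG : ∀ i, FullAt lam' (G i) := fun i => fd.full i lam' hposV
  have hNn : ∀ i, Nn lam' (spec z (G i)) := fun i => nn_spec z lam' _ (nn_of_pos _ _ (hG i).2.1)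
  set k' := co (phK phi (co phi i0)) j with hk'
  -- the value of `w^b`
  have he1 : ‖evR z (e : RO O)‖ = 1 := (hEv O).2.1 z _ e.isUnit
  set ζ : Circle := ⟨evR z (e : RO O), mem_sphere_zero_iff_norm.mpr he1⟩ with hζ
  have hζ' : (ζ : ℂ) = evR z (e : RO O) := rfl
  set N : ℕ := (lam' b).toNat with hN
  refine ⟨|C| * ‖evR z c‖ * ‖evR z ((G l).coeff 0)‖ * N, ?_⟩
  intro u
  set u' := extc k' b hj u ζ with hu'
  set PX := sl u' lam' (spec z (res (Ker (co phi i0)) D)) with hPX
  set PG : Fin n → Polynomial ℂ := fun i => sl u' lam' (spec z (G i)) with hPG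
  have hprod := sl_prod hM u' lam' Finset.univ (fun i => spec z (G i)) (fun i _ => hNn i)
  have hPV : sl u' lam' (spec z (cl (co phi i0) S h eta D)) =
      Polynomial.C (evR z c) * ∏ i, PG i := by
    rw [fd.eq, map_mul, map_prod, cst, spec_single]
    have h1 := hM (Ker (co phi i0)) u' lam' (single 0 (evR z c)) (∏ i, spec z (G i)) (by
      intro a ha
      rw [coeff_single] at ha
      have := Finsupp.support_single_subset ha
      rw [Finset.mem_singleton] at this
      rw [this, map_zero]) hprod.2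
    rw [h1.1, sl_cst, hprod.1]
  have hPl : PG l = Polynomial.C (evR z ((G l).coeff 0)) * (1 - Polynomial.X ^ N) := by
    have h1 : spec z (G l) = single 0 (evR z ((G l).coeff 0)) -
        single b (evR z ((G l).coeff 0) * evR z ((e⁻¹ : (RO O)ˣ) : RO O)) := by
      conv_lhs => rw [sp.eq]
      rw [map_mul, map_sub, map_one, cst, spec_single, spec_single, mul_sub, mul_one,
        single_mul_single, zero_add]
    have h2 : sl u' lam' (spec z (G l)) +
        sl u' lam' (single b (evR z ((G l).coeff 0) * evR z ((e⁻¹ : (RO O)ˣ) : RO O))) =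
        sl u' lam' (single 0 (evR z ((G l).coeff 0))) := by
      rw [← sl_add, h1, sub_add_cancel]
    rw [sl_cst, sl_single] at h2
    have h3 : (u' b : ℂ) = evR z (e : RO O) := by
      rw [hu', extc_self]
    have h4 : evR z ((e⁻¹ : (RO O)ˣ) : RO O) * evR z (e : RO O) = 1 := by
      rw [← map_mul, Units.inv_mul, map_one]
    rw [h3, mul_assoc, h4, mul_one] at h2
    change sl u' lam' (spec z (G l)) = _
    rw [eq_sub_of_add_eq h2, mul_sub, mul_one, ← Polynomial.C_mul_X_pow_eq_monomial]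
  -- the estimate for `0 < s < 1`
  have hest : ∀ s : ℝ, 0 < s → s < 1 → ‖PX.eval (s : ℂ)‖ ≤
      |C| * ‖evR z c‖ * ‖evR z ((G l).coeff 0)‖ * N *
        ∏ i ∈ Finset.univ.erase l, ‖(PG i).eval (s : ℂ)‖ := by
    intro s hs0 hs1
    have hns : ‖(s : ℂ)‖ = s := by
      rw [Complex.norm_real, Real.norm_eq_abs, abs_of_pos hs0]
    have h1 := hC u' (s : ℂ) (by rw [hns]; exact hs1)
    rw [← hPX, hPV, hns, Polynomial.eval_mul, Polynomial.eval_C, Polynomial.eval_prod,
      ← Finset.mul_prod_erase Finset.univ _ (Finset.mem_univ l), hPl, Polynomial.eval_mul,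
      Polynomial.eval_C, norm_mul, norm_mul, norm_mul, norm_prod] at h1
    have h2 : ‖(1 - Polynomial.X ^ N : Polynomial ℂ).eval (s : ℂ)‖ ≤ N * (1 - s) := by
      rw [Polynomial.eval_sub, Polynomial.eval_one, Polynomial.eval_pow, Polynomial.eval_X]
      have h3 : (1 : ℂ) - (s : ℂ) ^ N = ((1 - s ^ N : ℝ) : ℂ) := by push_cast; ring
      rw [h3, Complex.norm_real, Real.norm_eq_abs, abs_of_nonneg]
      · exact one_sub_pow_le s hs0 hs1 N
      · have := pow_le_one₀ (n := N) hs0.le hs1.le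
        linarith
    have h5 : 0 ≤ ∏ i ∈ Finset.univ.erase l, ‖(PG i).eval (s : ℂ)‖ :=
      Finset.prod_nonneg fun i _ => norm_nonneg _
    have h6 : ‖PX.eval (s : ℂ)‖ * (1 - s) ≤ (|C| * ‖evR z c‖ * ‖evR z ((G l).coeff 0)‖ * N *
        ∏ i ∈ Finset.univ.erase l, ‖(PG i).eval (s : ℂ)‖) * (1 - s) := by
      refine h1.trans ?_
      have h7 : ‖evR z ((G l).coeff 0)‖ * ‖(1 - Polynomial.X ^ N : Polynomial ℂ).eval (s : ℂ)‖ ≤
          ‖evR z ((G l).coeff 0)‖ * (N * (1 - s)) := mul_le_mul_of_nonneg_left h2 (norm_nonneg _)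
      calc C * (‖evR z c‖ * (‖evR z ((G l).coeff 0)‖ *
            ‖(1 - Polynomial.X ^ N : Polynomial ℂ).eval (s : ℂ)‖ *
            ∏ i ∈ Finset.univ.erase l, ‖(PG i).eval (s : ℂ)‖))
          ≤ |C| * (‖evR z c‖ * (‖evR z ((G l).coeff 0)‖ *
            ‖(1 - Polynomial.X ^ N : Polynomial ℂ).eval (s : ℂ)‖ *
            ∏ i ∈ Finset.univ.erase l, ‖(PG i).eval (s : ℂ)‖)) :=
            mul_le_mul_of_nonneg_right (le_abs_self C) (by positivity)
        _ ≤ |C| * (‖evR z c‖ * (‖evR z ((G l).coeff 0)‖ * (N * (1 - s)) *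
            ∏ i ∈ Finset.univ.erase l, ‖(PG i).eval (s : ℂ)‖)) := by
            apply mul_le_mul_of_nonneg_left _ (abs_nonneg C)
            apply mul_le_mul_of_nonneg_left _ (norm_nonneg _)
            exact mul_le_mul_of_nonneg_right h7 h5
        _ = _ := by ring
    exact le_of_mul_le_mul_right h6 (by linarith)
  -- the limit `s → 1`
  have hlim := lim_le (fun s : ℝ => ‖PX.eval (s : ℂ)‖)
    (fun s : ℝ => |C| * ‖evR z c‖ * ‖evR z ((G l).coeff 0)‖ * N *
        ∏ i ∈ Finset.univ.erase l, ‖(PG i).eval (s : ℂ)‖)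
    ((PX.continuous.comp Complex.continuous_ofReal).norm)
    (by
      apply Continuous.mul continuous_const
      apply continuous_finsetProd
      intro i _
      exact ((PG i).continuous.comp Complex.continuous_ofReal).norm) hest
  simp only [Complex.ofReal_one] at hlim
  have hX1 : PX.eval 1 = ev z u (Xl phi D i0 b j hj e) := by
    rw [hPX, sl_eval_one, Xl, ← ev_extc k' b hj u ζ z e hζ']
    rfl
  have hU1 : ev z u (∏ i ∈ Finset.univ.erase l, res (Ker (co (phK phi (co phi i0)) j)) (G i)) =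
      ∏ i ∈ Finset.univ.erase l, (PG i).eval 1 := by
    rw [← cl_prod l b j e sp hj, ← ev_extc k' b hj u ζ z e hζ', map_prod]
    apply Finset.prod_congr rfl
    intro i _
    change _ = (sl u' lam' (spec z (G i))).eval 1
    rw [sl_eval_one]
    rfl
  rw [hX1] at hlim
  rw [hU1, norm_prod]
  exact hlim

theorem nonzero (hU : UnitAS) (fd : FD phi D S i0 eta h c n G) (l : Fin n)
    (b : Ker (co phi i0)) (j : P) (e : (RO O)ˣ)
    (sp : Spt phi S i0 G l b j e) (hj : co (phK phi (co phi i0)) j b = 1) :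
    Xl phi D i0 b j hj e ≠ 0 := by
  intro hX
  have hV0 : cl (co (phK phi (co phi i0)) j) b hj e (cl (co phi i0) S h eta D) = 0 := by
    rw [fd.eq, map_mul, map_prod]
    have h1 : cl (co (phK phi (co phi i0)) j) b hj e (G l) = 0 := by
      rw [sp.eq, map_mul, cl_factor, mul_zero]
    rw [Finset.prod_eq_zero (Finset.mem_univ l) h1, mul_zero]
  have hb0 : (b : L) ≠ 0 := by
    intro h1
    have h2 : b = 0 := Subtype.ext h1
    rw [h2, map_zero] at hj
    exact zero_ne_one hj
  have hPD := dvd_of_closed (co phi i0) S h eta D (fun a ha => fd.cc.dd.bin a ha i0) _ b hj e hX hV0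
  have h3 : rk (supp D) = Module.finrank ℤ L := fd.cc.dd.spn
  have h4 := fd.cc.two
  have h5 := rank_le_one hU D (b : L) hb0 e fd.cc.dd.irr fd.cc.dd.st.1 hPD
  omega

end Main

/-- Row I1C. -/
theorem i1c (h1 : I1aS) (h2 : C1S) (h3 : FullS) (h4 : PrimS) (h5 : EvRS) (h6 : ZfinS)
    (h7 : SlMulS) (h8 : UnitAS) : I1S := by
  intro O _ _ _ _ P L _ _ _ _ _ phi D S i0 eta h c n G fd l b j e sp hj
  refine ⟨nonzero h8 fd l b j e sp hj, ?_⟩
  obtain ⟨hSD, hS0, lam, hS, hp⟩ := fd.cc.ray
  have hposV := pos_cl (co phi i0) S h eta D lam hS hp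
  have hG : ∀ i, FullAt (lam.comp (incl (Ker (co phi i0)))) (G i) := fun i =>
    fd.full i _ hposV
  have hFU := full_U h3 l b j e sp hj _ hG
  have hPU := prim_U h4 l b j e sp fd.irr fd.wd
  refine h2 O _ _ _ _ hFU hPU ?_
  refine (h6 O _ fd.cc.v0).subset ?_
  intro z hz
  by_contra hcon
  exact hz (est h1 h5 h7 fd l b j e sp hj lam hS hp z hcon)

end Pool.Agent.B5.H71
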