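import Pool.Agent.Lib.MP_b5021c_nt.B.H71.I1c

/-!
# Board b5, row I2C (helper71)
-/

namespace Pool.Agent.B5.H71

open scoped LaurentPolynomial
open AddMonoidAlgebra

set_option linter.unusedSectionVars false

section Rsh

variable {O : Type} [CommRing O] [IsDomain O] [IsPrincipalIdealRing O] [Coef O]

theorem circle_inf : Infinite Circle := by
  have h1 : (Set.Ioc (-Real.pi) Real.pi).Infinite := by
    apply Set.Ioc_infinite
    linarith [Real.pi_pos]
  have h2 : Infinite (Set.Ioc (-Real.pi) Real.pi) := h1.to_subtype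
  exact Infinite.of_injective _ Circle.argEquiv.symm.injective

theorem evR_zero (hZ : ZfinS) (p : RO O) (hp : ∀ z : Circle, evR z p = 0) : p = 0 := by
  by_contra h
  have h1 := hZ O p h
  have h2 : {z : Circle | evR z p = 0} = Set.univ := Set.eq_univ_of_forall hp
  rw [h2] at h1
  have := circle_inf
  exact Set.infinite_univ h1

theorem rsh_unit (hE : EvRS) (hZ : ZfinS) (e : (RO O)ˣ) :
    rsh (e : RO O) = ((e⁻¹ : (RO O)ˣ) : RO O) := by
  have h1 : rsh (e : RO O) * (e : RO O) - 1 = 0 := by
    apply evR_zero hZ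
    intro z
    rw [map_sub, map_mul, map_one, (hE O).2.2.1]
    have h2 := (hE O).2.1 z (e : RO O) e.isUnit
    rw [mul_comm, Complex.mul_conj, Complex.normSq_eq_norm_sq, h2]
    norm_num
  have h3 := sub_eq_zero.mp h1
  exact Units.eq_inv_of_mul_eq_one_left (by rw [mul_comm]; exact h3)

theorem rsh_ne (hE : EvRS) (hZ : ZfinS) (p : RO O) (hp : p ≠ 0) : rsh p ≠ 0 := by
  intro h
  apply hp
  apply evR_zero hZ
  intro z
  have h1 := (hE O).2.2.1 z p
  rw [h, map_zero] at h1
  have h2 := congrArg (starRingEnd ℂ) h1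
  rw [map_zero, Complex.conj_conj] at h2
  exact h2.symm

theorem rsh_rsh (hE : EvRS) (hZ : ZfinS) (p : RO O) : rsh (rsh p) = p := by
  have h : rsh (rsh p) - p = 0 := by
    apply evR_zero hZ
    intro z
    rw [map_sub, (hE O).2.2.1, (hE O).2.2.1, Complex.conj_conj, sub_self]
  exact sub_eq_zero.mp h

end Rsh

section Sharp

variable {O : Type} [CommRing O] [IsDomain O] [IsPrincipalIdealRing O] [Coef O] {L : Type}
  [AddCommGroup L]

theorem sharp_single (a : L) (q : RO O) : sharp (single a q) = single (-a) (rsh q) := by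
  simp [sharp]

theorem sharp_em (K : Submodule ℤ L) (F : AO O K) : sharp (em K F) = em K (sharp F) := by
  induction F using AddMonoidAlgebra.induction_linear with
  | zero => simp
  | add f g hf hg => rw [map_add, map_add, map_add, map_add, hf, hg]
  | single a q => rw [em_single, sharp_single, sharp_single, em_single]; rfl

theorem cl_sharp (hE : EvRS) (hZ : ZfinS) (k : L →+ ℤ) (S : L) (h : k S = 1) (eta : (RO O)ˣ)
    (F : AO O L) : cl k S h eta (sharp F) = sharp (cl k S h eta F) := by
  induction F using AddMonoidAlgebra.induction_linear with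
  | zero => simp
  | add f g hf hg => rw [map_add, map_add, map_add, map_add, hf, hg]
  | single a q =>
    rw [sharp_single, cl_single, cl_single, sharp_single, map_neg, map_neg, map_mul,
      rsh_unit hE hZ (eta ^ k a), zpow_neg]

/-- A pure identity. -/
theorem em_split (k : L →+ ℤ) (S : L) (h : k S = 1) (F G : AO O (Ker k))
    (hFG : em (Ker k) F = single (-S) 1 * em (Ker k) G) : F = 0 ∧ G = 0 := by
  have hF : F = 0 := by
    apply AddMonoidAlgebra.ext
    apply Finsupp.ext
    intro a
    rw [← em_coeff, hFG, coeff_single_mul_apply, one_mul, neg_neg, em_coeff_not]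
    · rfl
    · intro h2
      have h3 : k (a : L) = 0 := a.2
      rw [mem_Ker, map_add, h, h3] at h2
      omega
  refine ⟨hF, ?_⟩
  rw [hF, map_zero] at hFG
  have h1 : single S 1 * (single (-S) 1 * em (Ker k) G) = em (Ker k) G := by
    rw [← mul_assoc, single_mul_single, add_neg_cancel, mul_one]
    exact one_mul _
  rw [← hFG, mul_zero] at h1
  exact em_inj (Ker k) (by rw [← h1, map_zero])

/-- The two parts of a unitary multi-affine element. -/
theorem pair (hU : UnitAS) (hE : EvRS) (hZ : ZfinS) [Module.Free ℤ L] [Module.Finite ℤ L]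
    (k : L →+ ℤ) (S : L) (h : k S = 1)
    (D : AO O L) (X Y : AO O (Ker k)) (hdec : D = em (Ker k) X + single S 1 * em (Ker k) Y)
    (hD : ∀ a ∈ supp D, k a = 0 ∨ k a = 1) (h0 : D.coeff 0 ≠ 0) (hS : D.coeff S ≠ 0)
    (hun : Unitary D) : ∃ (m : Ker k) (u : RO O),
      sharp X = Y * single m u ∧ sharp Y = X * single m u := by
  obtain ⟨v, hv⟩ := hun.symm
  obtain ⟨a1, c1, hc1, hv1⟩ := (hU O L (v : AO O L)).mp v.isUnit
  rw [hv1] at hv
  have hc1' : c1 ≠ 0 := hc1.ne_zero
  have hcoef : ∀ a, D.coeff a ≠ 0 → D.coeff (-(a + a1)) ≠ 0 := by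
    intro a ha h1
    have h2 : (D * single a1 c1).coeff (a + a1) = D.coeff a * c1 := by
      rw [coeff_mul_single_apply, add_neg_cancel_right]
    rw [hv, sharp_coeff', h1, map_zero] at h2
    exact (mul_ne_zero ha hc1') h2.symm
  have hk1 := hD _ (hcoef 0 h0)
  have hk2 := hD _ (hcoef S hS)
  rw [map_neg, map_add, map_zero] at hk1
  rw [map_neg, map_add, h] at hk2
  have hk : k a1 = -1 := by omega
  have hm : k (S + a1) = 0 := by rw [map_add, h, hk]; omega
  refine ⟨⟨S + a1, hm⟩, c1, ?_⟩
  have hs : (single a1 c1 : AO O L) = single (-S) 1 * em (Ker k) (single ⟨S + a1, hm⟩ c1) := by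
    rw [em_single, single_mul_single, one_mul]
    congr 1
    exact (neg_add_cancel_left S a1).symm
  have hSS : (single S 1 : AO O L) * single (-S) 1 = 1 := by
    rw [single_mul_single, add_neg_cancel, mul_one]
    rfl
  have h1 : sharp D = em (Ker k) (sharp X) + single (-S) 1 * em (Ker k) (sharp Y) := by
    rw [hdec, map_add, map_mul, sharp_em, sharp_em, sharp_single, map_one]
  have h2 : em (Ker k) (sharp X - Y * single ⟨S + a1, hm⟩ c1) =
      single (-S) 1 * em (Ker k) (X * single ⟨S + a1, hm⟩ c1 - sharp Y) := by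
    rw [map_sub, map_sub, map_mul, map_mul]
    have h3 : em (Ker k) (sharp X) + single (-S) 1 * em (Ker k) (sharp Y) =
        (em (Ker k) X + single S 1 * em (Ker k) Y) *
          (single (-S) 1 * em (Ker k) (single ⟨S + a1, hm⟩ c1)) := by
      rw [← h1, ← hv, ← hs, ← hdec]
    linear_combination h3 + (em (Ker k) Y * em (Ker k) (single ⟨S + a1, hm⟩ c1)) * hSS
  have h4 := em_split k S h _ _ h2
  exact ⟨sub_eq_zero.mp h4.1, (sub_eq_zero.mp h4.2).symm⟩

/-- The reciprocity of the quotient. -/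
theorem recip (hU : UnitAS) (hE : EvRS) (hZ : ZfinS) [Module.Free ℤ L] [Module.Finite ℤ L]
    (k : L →+ ℤ) (S : L) (h : k S = 1) (eta : (RO O)ˣ)
    (D : AO O L) (hD : ∀ a ∈ supp D, k a = 0 ∨ k a = 1) (h0 : D.coeff 0 ≠ 0)
    (hS : D.coeff S ≠ 0) (hun : Unitary D) (k' : Ker k →+ ℤ) (b : Ker k) (hj : k' b = 1)
    (e : (RO O)ˣ) (c : RO O) (W : AO O (Ker k)) (U q : AO O (Ker k'))
    (hV : cl k S h eta D = (1 - single b ((e⁻¹ : (RO O)ˣ) : RO O)) * (cst c * W))
    (hW : cl k' b hj e W = U) (hU0 : U ≠ 0)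
    (hX : cl k' b hj e (res (Ker k) D) = q * U) :
    q * cst (rsh c) = sharp q * cst c := by
  have hdec := decomp k S h D hD
  generalize res (Ker k) D = X at hX hdec
  generalize res (Ker k) (single (-S) 1 * D) = Y at hdec
  obtain ⟨m, u, hX', hY'⟩ := pair hU hE hZ k S h D X Y hdec hD h0 hS hun
  have hVV : cl k S h eta D = X + cst (eta : RO O) * Y := by
    conv_lhs => rw [hdec]
    rw [map_add, map_mul, cl_em, cl_em, cl_single, prj_self, h, zpow_one, one_mul]
    rfl
  have hee : (cst ((eta⁻¹ : (RO O)ˣ) : RO O) : AO O (Ker k)) * cst (eta : RO O) = 1 := by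
    rw [← cst_mul, Units.inv_mul, cst_one]
  have hcs : ∀ d : RO O, sharp (cst d : AO O (Ker k)) = cst (rsh d) := by
    intro d; rw [cst, sharp_single, neg_zero]; rfl
  have hcs' : ∀ d : RO O, sharp (cst d : AO O (Ker k')) = cst (rsh d) := by
    intro d; rw [cst, sharp_single, neg_zero]; rfl
  have hVs : sharp (X + cst (eta : RO O) * Y) =
      cst ((eta⁻¹ : (RO O)ˣ) : RO O) * single m u * (X + cst (eta : RO O) * Y) := by
    rw [map_add, map_mul, hX', hY', hcs, rsh_unit hE hZ]
    linear_combination (-(Y * single m u)) * hee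
  -- (*)
  have hstar : X * sharp (X + cst (eta : RO O) * Y) + sharp X * (X + cst (eta : RO O) * Y) =
      (X + cst (eta : RO O) * Y) * sharp (X + cst (eta : RO O) * Y) := by
    rw [hVs, hX']
    linear_combination (-(Y * single m u * (X + cst (eta : RO O) * Y))) * hee
  rw [← hVV, hV] at hstar
  set Pf : AO O (Ker k) := 1 - single b ((e⁻¹ : (RO O)ˣ) : RO O) with hPf
  have hPs : sharp Pf = -(single (-b) (e : RO O)) * Pf := by
    have h9 : (single (-b) (e : RO O) : AO O (Ker k)) * single b ((e⁻¹ : (RO O)ˣ) : RO O) = 1 := by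
      rw [single_mul_single, neg_add_cancel, Units.mul_inv]
      rfl
    rw [hPf, map_sub, map_one, sharp_single, rsh_unit hE hZ, inv_inv]
    linear_combination (-1 : AO O (Ker k)) * h9
  have hb0 : b ≠ 0 := by
    intro h1
    rw [h1, map_zero] at hj
    exact zero_ne_one hj
  have hP0 : Pf ≠ 0 := by
    intro h1
    have h2 : Pf.coeff 0 = 1 := by
      rw [hPf, coeff_sub, Finsupp.sub_apply, coeff_single, Finsupp.single_eq_of_ne (Ne.symm hb0),
        sub_zero]
      exact coeff_one_zero
    rw [h1] at h2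
    exact zero_ne_one h2
  have h5 : Pf * (-(single (-b) (e : RO O)) * X * sharp (cst c * W) + sharp X * (cst c * W)) =
      Pf * ((cst c * W) * (-(single (-b) (e : RO O)) * Pf) * sharp (cst c * W)) := by
    rw [map_mul, hPs] at hstar
    linear_combination hstar
  have h6 := mul_left_cancel₀ hP0 h5
  have h7 := congrArg (cl k' b hj e) h6
  have hk0 : cl k' b hj e Pf = 0 := cl_factor k' b hj e
  have hk1 : cl k' b hj e (single (-b) (e : RO O)) = 1 := by
    rw [cl_single, map_neg, map_neg, prj_self, hj, neg_zero, zpow_neg, zpow_one, Units.mul_inv]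
    rfl
  simp only [map_add, map_mul, map_neg, hk1, hk0, cl_sharp hE hZ, cl_cst, hX, hW, hcs'] at h7
  have hUs : sharp U ≠ 0 := by
    intro h8
    apply hU0
    apply AddMonoidAlgebra.ext
    apply Finsupp.ext
    intro a
    have h9 := sharp_coeff' U (-a)
    rw [h8, neg_neg] at h9
    by_contra h10
    exact rsh_ne hE hZ _ h10 h9.symm
  have h8 : (U * sharp U) * (q * cst (rsh c)) = (U * sharp U) * (sharp q * cst c) := by
    linear_combination (-1 : AO O (Ker k')) * h7
  exact mul_left_cancel₀ (mul_ne_zero hU0 hUs) h8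

end Sharp

/-- Row I2C. -/
theorem i2c (h1 : MinS) (h3 : I1S) (h4 : FullS) (h5 : EvRS) (h6 : ZfinS)
    (h8 : UnitAS) : I2S := by
  intro O _ _ _ _ P L _ _ _ _ _ phi D S i0 eta h c n G fd l b j e sp hj q hq
  obtain ⟨hSD, hS0, lam, hS, hp⟩ := fd.cc.ray
  have hposV := pos_cl (co phi i0) S h eta D lam hS hp
  have hG : ∀ i, FullAt (lam.comp (incl (Ker (co phi i0)))) (G i) := fun i =>
    fd.full i _ hposV
  have hFU := full_U h4 l b j e sp hj _ hG
  have hX0 := (h3 O P L phi D S i0 eta h c n G fd l b j e sp hj).1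
  have hU0 : (∏ i ∈ Finset.univ.erase l, res (Ker (co (phK phi (co phi i0)) j)) (G i)) ≠ 0 := by
    intro h9
    exact hFU.1 (by rw [h9]; rfl)
  have hq0 : q ≠ 0 := by
    intro h9
    rw [h9, zero_mul] at hq
    exact hX0 hq
  have hc' : c * (G l).coeff 0 ≠ 0 := mul_ne_zero fd.c0 (fd.st l).1
  have hrec : q * cst (rsh (c * (G l).coeff 0)) = sharp q * cst (c * (G l).coeff 0) := by
    refine recip h8 h5 h6 (co phi i0) S h eta D (fun a ha => fd.cc.dd.bin a ha i0)
      fd.cc.dd.st.1 hSD fd.cc.dd.un (co (phK phi (co phi i0)) j) b hj e _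
      (∏ i ∈ Finset.univ.erase l, G i) _ q ?_ (cl_prod l b j e sp hj) hU0 hq
    rw [fd.eq, ← Finset.mul_prod_erase Finset.univ G (Finset.mem_univ l), cst_mul]
    conv_lhs => rw [sp.eq]
    ring
  have hsym : ∀ a, q.coeff a ≠ 0 → q.coeff (-a) ≠ 0 := by
    intro a ha h9
    have h10 := congrArg (fun F : AO O (Ker (co (phK phi (co phi i0)) j)) => F.coeff a) hrec
    simp only [cst, coeff_mul_single_zero] at h10
    rw [sharp_coeff', h9, map_zero rsh, zero_mul] at h10
    exact (mul_ne_zero ha (rsh_ne h5 h6 _ hc')) h10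
  intro a ha j' hj' hbj'
  -- the functional
  set f : Ker (co (phK phi (co phi i0)) j) →+ ℤ :=
    (co (phK phi (co phi i0)) j').comp (incl (Ker (co (phK phi (co phi i0)) j))) with hf
  have hmin : ∀ a ∈ supp (q * ∏ i ∈ Finset.univ.erase l,
      res (Ker (co (phK phi (co phi i0)) j)) (G i)), 0 ≤ f a := by
    rw [← hq]
    intro a ha
    obtain ⟨a', ha', rfl⟩ := supp_cl _ b hj e _ a ha
    have h9 : ((prj (co (phK phi (co phi i0)) j) b hj a' : Ker (co (phK phi (co phi i0)) j)) :
        Ker (co phi i0)) = a' - co (phK phi (co phi i0)) j a' • b := prj_coe _ _ _ _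
    have h10 : f (prj (co (phK phi (co phi i0)) j) b hj a') =
        phi ((a' : Ker (co phi i0)) : L) j' := by
      change co (phK phi (co phi i0)) j' ((prj (co (phK phi (co phi i0)) j) b hj a' :
        Ker (co (phK phi (co phi i0)) j)) : Ker (co phi i0)) = _
      rw [h9, map_sub, map_zsmul]
      have h11 : co (phK phi (co phi i0)) j' b = 0 := hbj'
      rw [h11, smul_zero, sub_zero]
      rfl
    rw [h10]
    have h12 : D.coeff (a' : L) ≠ 0 := ha'
    rcases fd.cc.dd.bin _ h12 j' with h13 | h13 <;> rw [h13] <;> norm_num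
  have hM := h1 O _ q _ hq0 hFU.1 f 0 hmin
  have h14 := hM a ha
  have h15 := hM (-a) (hsym a ha)
  rw [map_neg] at h15
  have h16 : f a = 0 := by omega
  exact h16

end Pool.Agent.B5.H71
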