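import Pool.Agent.Lib.MP_b5021c_nt.IfaceG

/-!
# Board b5, common lemmas for the rows I1C and I2C (helper71)
-/

namespace Pool.Agent.B5.H71

open scoped LaurentPolynomial
open AddMonoidAlgebra

section Em

variable {k₀ : Type} [Semiring k₀] {L : Type} [AddCommGroup L]

/-- The embedding of the group algebra of a sublattice. -/
noncomputable def em (K : Submodule ℤ L) : AddMonoidAlgebra k₀ K →+* AddMonoidAlgebra k₀ L :=
  AddMonoidAlgebra.mapDomainRingHom k₀ (incl K)

theorem em_single (K : Submodule ℤ L) (a : K) (q : k₀) :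
    em K (single a q) = single (a : L) q := by
  simp [em, incl]

theorem em_coeff (K : Submodule ℤ L) (F : AddMonoidAlgebra k₀ K) (a : K) :
    (em K F).coeff (a : L) = F.coeff a := by
  have h : Function.Injective (incl K) := Subtype.coe_injective
  exact Finsupp.mapDomain_apply h F.coeff a

theorem em_coeff_not (K : Submodule ℤ L) (F : AddMonoidAlgebra k₀ K) (a : L) (ha : a ∉ K) :
    (em K F).coeff a = 0 := by
  have h := Finsupp.mapDomain_of_notMem_range (f := incl K) F.coeff a (by
    rintro ⟨b, rfl⟩
    exact ha b.2)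
  exact h

theorem em_inj (K : Submodule ℤ L) :
    Function.Injective (em K : AddMonoidAlgebra k₀ K →+* AddMonoidAlgebra k₀ L) := by
  intro F G h
  apply AddMonoidAlgebra.ext
  apply Finsupp.ext
  intro a
  rw [← em_coeff, ← em_coeff, h]

theorem em_res (K : Submodule ℤ L) (G : AddMonoidAlgebra k₀ L) (hG : ∀ a ∈ supp G, a ∈ K) :
    em K (res K G) = G := by
  apply AddMonoidAlgebra.ext
  apply Finsupp.ext
  intro a
  by_cases ha : a ∈ K
  · exact (em_coeff K (res K G) ⟨a, ha⟩).trans rfl
  · rw [em_coeff_not K _ a ha]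
    by_contra h
    exact ha (hG a (fun h2 => h h2.symm))

theorem res_em (K : Submodule ℤ L) (F : AddMonoidAlgebra k₀ K) :
    res K (em K F) = F := by
  apply AddMonoidAlgebra.ext
  apply Finsupp.ext
  intro a
  rw [res_coeff, em_coeff]

end Em

section Cl

variable {O : Type} [CommRing O] {L : Type} [AddCommGroup L]

theorem prj_ker (k : L →+ ℤ) (S : L) (h : k S = 1) (a : Ker k) : prj k S h (a : L) = a := by
  apply Subtype.ext
  rw [prj_coe]
  have : k (a : L) = 0 := a.2
  rw [this, zero_smul, sub_zero]

theorem prj_self (k : L →+ ℤ) (S : L) (h : k S = 1) : prj k S h S = 0 := by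
  apply Subtype.ext
  rw [prj_coe, h, one_smul, sub_self]
  rfl

theorem cl_em (k : L →+ ℤ) (S : L) (h : k S = 1) (eta : (RO O)ˣ) (F : AO O (Ker k)) :
    cl k S h eta (em (Ker k) F) = F := by
  induction F using AddMonoidAlgebra.induction_linear with
  | zero => simp
  | add f g hf hg => rw [map_add, map_add, hf, hg]
  | single a q =>
    rw [em_single, cl_single, prj_ker]
    have : k (a : L) = 0 := a.2
    rw [this]
    simp

theorem cl_res (k : L →+ ℤ) (S : L) (h : k S = 1) (eta : (RO O)ˣ) (G : AO O L)
    (hG : ∀ a ∈ supp G, k a = 0) : cl k S h eta G = res (Ker k) G := by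
  have h1 := em_res (Ker k) G (fun a ha => hG a ha)
  conv_lhs => rw [← h1]
  exact cl_em k S h eta _

theorem cl_cst (k : L →+ ℤ) (S : L) (h : k S = 1) (eta : (RO O)ˣ) (c : RO O) :
    cl k S h eta (cst c) = cst c := by
  rw [cst, cl_single, map_zero, map_zero]
  simp [cst]

theorem cst_one : (cst (1 : RO O) : AO O L) = 1 := rfl

theorem cst_mul (c d : RO O) : (cst (c * d) : AO O L) = cst c * cst d := by
  simp [cst, single_mul_single]

theorem em_cst (K : Submodule ℤ L) (c : RO O) : em K (cst c) = (cst c : AO O L) := by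
  rw [cst, em_single]; rfl

theorem cst_mul_coeff (c : RO O) (G : AO O L) (a : L) : (cst c * G).coeff a = c * G.coeff a := by
  rw [cst, coeff_single_zero_mul]

/-- The factor which is closed to zero. -/
theorem cl_factor (k : L →+ ℤ) (S : L) (h : k S = 1) (eta : (RO O)ˣ) :
    cl k S h eta (1 - single S ((eta⁻¹ : (RO O)ˣ) : RO O)) = 0 := by
  rw [map_sub, map_one, cl_single, prj_self, h, zpow_one, Units.inv_mul, ← one_def, sub_self]

/-- `w^S - eta` divides `F - F(w^S = eta)`. -/
theorem cl_dvd (k : L →+ ℤ) (S : L) (h : k S = 1) (eta : (RO O)ˣ) (F : AO O L) :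
    (1 - single S ((eta⁻¹ : (RO O)ˣ) : RO O)) ∣ F - em (Ker k) (cl k S h eta F) := by
  induction F using AddMonoidAlgebra.induction_linear with
  | zero => simp
  | add f g hf hg =>
    rw [map_add, map_add]
    have : f + g - (em (Ker k) (cl k S h eta f) + em (Ker k) (cl k S h eta g)) =
      (f - em (Ker k) (cl k S h eta f)) + (g - em (Ker k) (cl k S h eta g)) := by ring
    rw [this]
    exact dvd_add hf hg
  | single a q =>
    rw [cl_single, em_single, prj_coe]
    -- the units `B = w^S`, `E = eta`
    set B : AO O L := single S ((eta⁻¹ : (RO O)ˣ) : RO O) with hB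
    set B' : AO O L := single (-S) ((eta : (RO O)ˣ) : RO O) with hB'
    have hBB : B * B' = 1 := by
      rw [hB, hB', single_mul_single, add_neg_cancel, Units.inv_mul]; rfl
    -- powers
    have hpow : ∀ n : ℕ, B ^ n = single ((n : ℤ) • S) (((eta⁻¹ : (RO O)ˣ) ^ n : (RO O)ˣ) : RO O) := by
      intro n
      rw [hB, single_pow]
      congr 1
      · rw [natCast_zsmul]
      
    have hpow' : ∀ n : ℕ, B' ^ n = single (-((n : ℤ) • S)) (((eta : (RO O)ˣ) ^ n : (RO O)ˣ) : RO O) := by
      intro n
      rw [hB', single_pow]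
      congr 1
      · rw [natCast_zsmul, smul_neg]
      
    have key : single a q - single (a - k a • S) (q * ((eta ^ (k a) : (RO O)ˣ) : RO O)) =
        single (a - k a • S) (q * ((eta ^ (k a) : (RO O)ˣ) : RO O)) *
          (single (k a • S) (((eta⁻¹ : (RO O)ˣ) ^ (k a) : (RO O)ˣ) : RO O) - 1) := by
      rw [mul_sub, mul_one, single_mul_single, sub_add_cancel, mul_assoc, ← Units.val_mul, inv_zpow,
        mul_inv_cancel, Units.val_one, mul_one]
    rw [key]
    apply Dvd.dvd.mul_left
    rcases Int.eq_nat_or_neg (k a) with ⟨n, hn | hn⟩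
    · rw [hn]
      have h1 : (single ((n : ℤ) • S) (((eta⁻¹ : (RO O)ˣ) ^ (n : ℤ) : (RO O)ˣ) : RO O) : AO O L) - 1 =
          (1 - B ^ n) * (-1) := by
        rw [hpow, zpow_natCast]; ring
      rw [h1]
      exact Dvd.dvd.mul_right (one_sub_dvd_one_sub_pow B n) _
    · rw [hn]
      have h1 : (single ((-(n : ℤ)) • S) (((eta⁻¹ : (RO O)ˣ) ^ (-(n : ℤ)) : (RO O)ˣ) : RO O) : AO O L) - 1 =
          B' ^ n * (1 - B ^ n) := by
        have h2 : B' ^ n * B ^ n = 1 := by rw [← mul_pow, mul_comm B' B, hBB, one_pow]
        rw [mul_sub, mul_one, h2, hpow', neg_smul, inv_zpow', neg_neg, zpow_natCast]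
      rw [h1]
      exact Dvd.dvd.mul_left (one_sub_dvd_one_sub_pow B n) _

end Cl

section Chars

variable {O : Type} [CommRing O] [Coef O] {L : Type} [AddCommGroup L]

/-- Extension of a character from `Ker k` to `L`, with value `ζ` at `S`. -/
noncomputable def extc (k : L →+ ℤ) (S : L) (h : k S = 1) (u : AddChar (Ker k) Circle)
    (ζ : Circle) : AddChar L Circle where
  toFun a := u (prj k S h a) * ζ ^ (k a)
  map_zero_eq_one' := by simp
  map_add_eq_mul' a b := by
    rw [map_add (prj k S h), map_add k, AddChar.map_add_eq_mul, zpow_add]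
    exact mul_mul_mul_comm _ _ _ _

theorem extc_ker (k : L →+ ℤ) (S : L) (h : k S = 1) (u : AddChar (Ker k) Circle)
    (ζ : Circle) (a : Ker k) : extc k S h u ζ (a : L) = u a := by
  change u (prj k S h a) * ζ ^ (k a) = u a
  have : k (a : L) = 0 := a.2
  rw [prj_ker, this, zpow_zero, mul_one]

theorem extc_self (k : L →+ ℤ) (S : L) (h : k S = 1) (u : AddChar (Ker k) Circle)
    (ζ : Circle) : extc k S h u ζ S = ζ := by
  change u (prj k S h S) * ζ ^ (k S) = ζ
  rw [prj_self, h, zpow_one, AddChar.map_zero_eq_one, one_mul]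

theorem ev_single (z : Circle) (u : AddChar L Circle) (a : L) (q : RO O) :
    ev z u (single a q) = evR z q * (u a : ℂ) := by
  simp only [ev, RingHom.comp_apply, spec, mapRingHom_single]
  rw [evC_apply, coeff_single, Finsupp.sum_single_index (by simp)]

theorem ev_extc (k : L →+ ℤ) (S : L) (h : k S = 1) (u : AddChar (Ker k) Circle)
    (ζ : Circle) (z : Circle) (eta : (RO O)ˣ) (hz : (ζ : ℂ) = evR z (eta : RO O)) (F : AO O L) :
    ev z (extc k S h u ζ) F = ev z u (cl k S h eta F) := by
  induction F using AddMonoidAlgebra.induction_linear with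
  | zero => simp
  | add f g hf hg => rw [map_add, map_add, map_add, hf, hg]
  | single a q =>
    rw [cl_single, ev_single, ev_single, map_mul]
    have h1 : evR z ((eta ^ (k a) : (RO O)ˣ) : RO O) = ((ζ ^ (k a) : Circle) : ℂ) := by
      have h2 : (Units.map (evR z).toMonoidHom (eta ^ (k a)) : ℂˣ) =
          (Units.map (evR z).toMonoidHom eta) ^ (k a) := map_zpow _ _ _
      have h3 := congrArg (Units.val) h2
      rw [Units.val_zpow_eq_zpow_val] at h3
      rw [Circle.coe_zpow, hz]
      exact h3
    rw [h1]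
    change evR z q * ((u (prj k S h a) * ζ ^ (k a) : Circle) : ℂ) = _
    rw [Circle.coe_mul]
    ring

end Chars

section Sl

variable {L : Type} [AddCommGroup L]

theorem sl_em (K : Submodule ℤ L) (u' : AddChar L Circle) (u : AddChar K Circle)
    (hu : ∀ a : K, u' (a : L) = u a) (lam : L →+ ℤ) (p : CA K) :
    sl u' lam (em K p) = sl u (lam.comp (incl K)) p := by
  unfold sl
  have : (em K p).coeff = Finsupp.mapDomain (incl K) p.coeff := rfl
  rw [this, Finsupp.sum_mapDomain_index]
  · apply Finsupp.sum_congr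
    intro a _
    simp [incl, hu]
  · intro a; simp
  · intro a b c; rw [add_mul, map_add]

theorem sl_eval_one (u : AddChar L Circle) (lam : L →+ ℤ) (p : CA L) :
    (sl u lam p).eval 1 = evC u p := by
  rw [evC_apply]
  unfold sl
  rw [Finsupp.sum, Finsupp.sum, Polynomial.eval_finsetSum]
  apply Finset.sum_congr rfl
  intro a _
  simp

theorem sl_cst (u : AddChar L Circle) (lam : L →+ ℤ) (c : ℂ) :
    sl u lam (single 0 c) = Polynomial.C c := by
  unfold sl
  rw [coeff_single, Finsupp.sum_single_index (by simp)]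
  simp

theorem sl_add (u : AddChar L Circle) (lam : L →+ ℤ) (p q : CA L) :
    sl u lam (p + q) = sl u lam p + sl u lam q := by
  unfold sl
  rw [coeff_add, Finsupp.sum_add_index']
  · intro a; simp
  · intro a b c; rw [add_mul, map_add]

theorem sl_single (u : AddChar L Circle) (lam : L →+ ℤ) (a : L) (c : ℂ) :
    sl u lam (single a c) = Polynomial.monomial (lam a).toNat (c * (u a : ℂ)) := by
  unfold sl
  rw [coeff_single, Finsupp.sum_single_index (by simp)]

end Sl

section Spec

variable {O : Type} [CommRing O] [Coef O] {L : Type} [AddCommGroup L]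

theorem spec_single (z : Circle) (a : L) (q : RO O) :
    spec z (single a q) = single a (evR z q) := by
  simp [spec]

theorem spec_em (z : Circle) (K : Submodule ℤ L) (F : AO O K) :
    spec z (em K F) = em K (spec z F) := by
  induction F using AddMonoidAlgebra.induction_linear with
  | zero => simp
  | add f g hf hg => rw [map_add, map_add, map_add, map_add, hf, hg]
  | single a q => rw [em_single, spec_single, spec_single, em_single]

end Spec

end Pool.Agent.B5.H71
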